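import Pool.Agent.Helper36.JJ.Defs

/-!
# JJ-20: the maximum on a bounded fibre and Lagrange multipliers
-/

namespace Pool.Agent.Helper36.JJ

open Finset Module
open Pool.Agent.Helper36.Pin

/-- the derivative of a polynomial map -/
theorem hasStrictFDerivAt_aeval {ι : Type} [Fintype ι] (f : MvPolynomial ι ℚ) (z : ι → ℝ) :
    HasStrictFDerivAt (fun z : ι → ℝ => MvPolynomial.aeval z f)
      (∑ i, (grad f z i) • (ContinuousLinearMap.proj i : (ι → ℝ) →L[ℝ] ℝ)) z := by
  classical
  induction f using MvPolynomial.induction_on with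
  | C a =>
    have h1 : (fun z : ι → ℝ => MvPolynomial.aeval z (MvPolynomial.C a : MvPolynomial ι ℚ)) =
        fun _ => algebraMap ℚ ℝ a := by
      funext z
      simp
    have h2 : (∑ i, (grad (MvPolynomial.C a : MvPolynomial ι ℚ) z i) •
        (ContinuousLinearMap.proj i : (ι → ℝ) →L[ℝ] ℝ)) = 0 := by
      apply Finset.sum_eq_zero
      intro i _
      simp [grad]
    rw [h1, h2]
    exact hasStrictFDerivAt_const _ _
  | add p q hp hq =>
    have h1 : (fun z : ι → ℝ => MvPolynomial.aeval z (p + q)) =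
        fun z : ι → ℝ => MvPolynomial.aeval z p + MvPolynomial.aeval z q := by
      funext z
      simp
    have h2 : (∑ i, (grad (p + q) z i) • (ContinuousLinearMap.proj i : (ι → ℝ) →L[ℝ] ℝ)) =
        (∑ i, (grad p z i) • (ContinuousLinearMap.proj i : (ι → ℝ) →L[ℝ] ℝ)) +
        (∑ i, (grad q z i) • (ContinuousLinearMap.proj i : (ι → ℝ) →L[ℝ] ℝ)) := by
      rw [← Finset.sum_add_distrib]
      refine Finset.sum_congr rfl fun i _ => ?_
      rw [← add_smul]
      congr 1
      simp [grad]
    rw [h1, h2]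
    exact hp.add hq
  | mul_X p j hp =>
    have h1 : (fun z : ι → ℝ => MvPolynomial.aeval z (p * MvPolynomial.X j)) =
        fun z : ι → ℝ => MvPolynomial.aeval z p * z j := by
      funext z
      simp
    have hj : HasStrictFDerivAt (fun z : ι → ℝ => z j)
        (ContinuousLinearMap.proj j : (ι → ℝ) →L[ℝ] ℝ) z :=
      (ContinuousLinearMap.proj j : (ι → ℝ) →L[ℝ] ℝ).hasStrictFDerivAt
    have h2 : (∑ i, (grad (p * MvPolynomial.X j) z i) •
        (ContinuousLinearMap.proj i : (ι → ℝ) →L[ℝ] ℝ)) =
        (MvPolynomial.aeval z p) • (ContinuousLinearMap.proj j : (ι → ℝ) →L[ℝ] ℝ) +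
        (z j) • (∑ i, (grad p z i) • (ContinuousLinearMap.proj i : (ι → ℝ) →L[ℝ] ℝ)) := by
      have h3 : ∀ i, grad (p * MvPolynomial.X j) z i =
          (if i = j then MvPolynomial.aeval z p else 0) + z j * grad p z i := by
        intro i
        unfold grad
        rw [Derivation.leibniz, MvPolynomial.pderiv_X]
        by_cases hij : i = j
        · subst hij
          simp
        · have hji : j ≠ i := fun h => hij h.symm
          simp [hij, hji]
      simp_rw [h3, add_smul, Finset.sum_add_distrib]
      congr 1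
      · simp
      · rw [Finset.smul_sum]
        refine Finset.sum_congr rfl fun i _ => ?_
        rw [smul_smul]
    rw [h1, h2]
    exact hp.mul hj

theorem exists_max {ι κ : Type} [Fintype ι] [Fintype κ] (F : κ → MvPolynomial ι ℚ)
    (h : MvPolynomial ι ℚ) (z₀ : ι → ℝ)
    (hbd : Bornology.IsBounded {z : ι → ℝ | ∀ k,
      MvPolynomial.aeval z (F k) = MvPolynomial.aeval z₀ (F k)}) :
    ∃ zs : ι → ℝ, (∀ k, MvPolynomial.aeval zs (F k) = MvPolynomial.aeval z₀ (F k)) ∧
      (∀ z : ι → ℝ, (∀ k, MvPolynomial.aeval z (F k) = MvPolynomial.aeval z₀ (F k)) →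
        MvPolynomial.aeval z h ≤ MvPolynomial.aeval zs h) ∧
      ¬ LinearIndependent ℝ (fun o : Option κ => grad (o.elim h F) zs) := by
  classical
  have hcont : ∀ f : MvPolynomial ι ℚ, Continuous (fun z : ι → ℝ => MvPolynomial.aeval z f) :=
    fun f => continuous_iff_continuousAt.mpr fun z => (hasStrictFDerivAt_aeval f z).continuousAt
  set S : Set (ι → ℝ) := {z : ι → ℝ | ∀ k,
      MvPolynomial.aeval z (F k) = MvPolynomial.aeval z₀ (F k)} with hS
  have hcl : IsClosed S := by
    rw [hS, Set.ofPred_forall]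
    exact isClosed_iInter fun k => isClosed_eq (hcont (F k)) continuous_const
  have hcomp : IsCompact S := Metric.isCompact_of_isClosed_isBounded hcl hbd
  have hne : S.Nonempty := ⟨z₀, fun k => rfl⟩
  obtain ⟨zs, hzs, hmax⟩ := hcomp.exists_isMaxOn hne (hcont h).continuousOn
  refine ⟨zs, hzs, fun z hz => hmax hz, ?_⟩
  have hext : IsLocalExtrOn (fun z : ι → ℝ => MvPolynomial.aeval z h)
      {x | ∀ k, (fun z : ι → ℝ => MvPolynomial.aeval z (F k)) x =
        (fun z : ι → ℝ => MvPolynomial.aeval z (F k)) zs} zs := by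
    have hSe : {x | ∀ k, (fun z : ι → ℝ => MvPolynomial.aeval z (F k)) x =
        (fun z : ι → ℝ => MvPolynomial.aeval z (F k)) zs} = S := by
      ext x
      constructor
      · intro hx k
        exact (hx k).trans (hzs k)
      · intro hx k
        exact (hx k).trans (hzs k).symm
    rw [hSe]
    right
    exact hmax.localize
  obtain ⟨Λ, Λ₀, hΛ, hsum⟩ := hext.exists_multipliers_of_hasStrictFDerivAt
    (fun k => hasStrictFDerivAt_aeval (F k) zs) (hasStrictFDerivAt_aeval h zs)
  rw [Fintype.linearIndependent_iff]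
  intro hli
  have key := hli (fun o : Option κ => o.elim Λ₀ Λ) (by
    funext i
    have h1 := congrArg (fun L : (ι → ℝ) →L[ℝ] ℝ => L (Pi.single i 1)) hsum
    simp only [add_apply, smul_apply,
      _root_.sum_apply, ContinuousLinearMap.proj_apply,
      zero_apply, smul_eq_mul, Pi.single_apply, mul_ite, mul_one, mul_zero,
      Finset.sum_ite_eq', Finset.mem_univ, if_true] at h1
    rw [Fintype.sum_option]
    simp only [Option.elim_none, Option.elim_some, Pi.add_apply, Pi.smul_apply, smul_eq_mul,
      Finset.sum_apply, Pi.zero_apply]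
    linarith)
  apply hΛ
  rw [Prod.mk_eq_zero]
  constructor
  · funext k
    exact key (some k)
  · exact key none

end Pool.Agent.Helper36.JJ
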